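import Mathlib

/-!
# `K₁` of rings, Whitehead groups and the assembly map for Whitehead groups

`K1 R` is the group `K₁(R) = GL(R)ᵃᵇ = colim_n GL_n(R)ᵃᵇ`: it is generated by symbols `[U]`, `U` an
invertible `n × n` matrix over `R`, `n ≥ 0`, with the relations `[U V] = [U] + [V]` (matrices of
the same size) and `[diag(U, 1)] = [U]`.

`Wh G` is the Whitehead group of `G`, the quotient of `K₁(ℤ[G])` by the classes of the `1 × 1`
matrices `(-1)` and `(g)`, `g ∈ G`.

For a family `𝓕` of subgroups of `G`, `ColimWh G 𝓕` is the colimit of the groups `Wh(F)`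
over the subgroups `F` in `𝓕`, the morphisms `F → F'` being the restrictions of the conjugations
`x ↦ g x g⁻¹` with `g F g⁻¹ ⊆ F'`, and `assembly G 𝓕` is the natural map from it to `Wh(G)`.
-/

set_option autoImplicit false

open Matrix

universe u v w

namespace Pool.Agent.H95.WH

section K1

variable {R : Type u} [Ring R] {S : Type v} [Ring S] {T : Type w} [Ring T]

/-- The matrix `diag(U, 1)`. -/
def stabMat {n : ℕ} (U : Matrix (Fin n) (Fin n) R) : Matrix (Fin (n + 1)) (Fin (n + 1)) R :=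
  Matrix.reindex finSumFinEquiv finSumFinEquiv
    (Matrix.fromBlocks U 0 0 (1 : Matrix (Fin 1) (Fin 1) R))

theorem stabMat_mul {n : ℕ} (U V : Matrix (Fin n) (Fin n) R) :
    stabMat (U * V) = stabMat U * stabMat V := by
  rw [stabMat, stabMat, stabMat, Matrix.reindex_apply, Matrix.reindex_apply, Matrix.reindex_apply,
    Matrix.submatrix_mul_equiv, Matrix.fromBlocks_multiply]
  simp

theorem stabMat_one {n : ℕ} : stabMat (1 : Matrix (Fin n) (Fin n) R) = 1 := by
  rw [stabMat, Matrix.fromBlocks_one, Matrix.reindex_apply, Matrix.submatrix_one_equiv]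

/-- The invertible matrix `diag(U, 1)`. -/
def stab {n : ℕ} (U : (Matrix (Fin n) (Fin n) R)ˣ) :
    (Matrix (Fin (n + 1)) (Fin (n + 1)) R)ˣ where
  val := stabMat U.val
  inv := stabMat U.inv
  val_inv := by rw [← stabMat_mul, U.val_inv, stabMat_one]
  inv_val := by rw [← stabMat_mul, U.inv_val, stabMat_one]

/-- The invertible matrices over `R` of all sizes. -/
abbrev GLAll (R : Type u) [Ring R] : Type u := Σ n : ℕ, (Matrix (Fin n) (Fin n) R)ˣ

/-- The relations of `K₁(R)`. -/
def K1Rel (R : Type u) [Ring R] : AddSubgroup (FreeAbelianGroup (GLAll R)) :=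
  AddSubgroup.closure
    ({z | ∃ (n : ℕ) (U V : (Matrix (Fin n) (Fin n) R)ˣ),
      z = FreeAbelianGroup.of ⟨n, U * V⟩ - FreeAbelianGroup.of ⟨n, U⟩ -
        FreeAbelianGroup.of ⟨n, V⟩} ∪
    {z | ∃ (n : ℕ) (U : (Matrix (Fin n) (Fin n) R)ˣ),
      z = FreeAbelianGroup.of ⟨n + 1, stab U⟩ - FreeAbelianGroup.of ⟨n, U⟩})

/-- The group `K₁(R)`. -/
def K1 (R : Type u) [Ring R] : Type u := FreeAbelianGroup (GLAll R) ⧸ K1Rel R

noncomputable instance instK1 (R : Type u) [Ring R] : AddCommGroup (K1 R) :=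
  QuotientAddGroup.Quotient.addCommGroup (K1Rel R)

namespace K1

/-- The class of an invertible matrix. -/
def mk {n : ℕ} (U : (Matrix (Fin n) (Fin n) R)ˣ) : K1 R :=
  QuotientAddGroup.mk' (K1Rel R) (FreeAbelianGroup.of ⟨n, U⟩)

theorem mk_mul {n : ℕ} (U V : (Matrix (Fin n) (Fin n) R)ˣ) : mk (U * V) = mk U + mk V := by
  have h : (FreeAbelianGroup.of (⟨n, U * V⟩ : GLAll R) - FreeAbelianGroup.of ⟨n, U⟩ -
      FreeAbelianGroup.of ⟨n, V⟩) ∈ K1Rel R :=
    AddSubgroup.subset_closure (Or.inl ⟨n, U, V, rfl⟩)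
  have h2 : QuotientAddGroup.mk' (K1Rel R) (FreeAbelianGroup.of (⟨n, U * V⟩ : GLAll R) -
      FreeAbelianGroup.of ⟨n, U⟩ - FreeAbelianGroup.of ⟨n, V⟩) = 0 :=
    (QuotientAddGroup.eq_zero_iff _).2 h
  rw [map_sub, map_sub, sub_sub, sub_eq_zero] at h2
  exact h2

theorem mk_stab {n : ℕ} (U : (Matrix (Fin n) (Fin n) R)ˣ) : mk (stab U) = mk U := by
  have h : (FreeAbelianGroup.of (⟨n + 1, stab U⟩ : GLAll R) - FreeAbelianGroup.of ⟨n, U⟩) ∈
      K1Rel R := AddSubgroup.subset_closure (Or.inr ⟨n, U, rfl⟩)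
  have h2 : QuotientAddGroup.mk' (K1Rel R) (FreeAbelianGroup.of (⟨n + 1, stab U⟩ : GLAll R) -
      FreeAbelianGroup.of ⟨n, U⟩) = 0 := (QuotientAddGroup.eq_zero_iff _).2 h
  rw [map_sub, sub_eq_zero] at h2
  exact h2

theorem hom_ext {M : Type*} [AddCommGroup M] {f g : K1 R →+ M}
    (h : ∀ (n : ℕ) (U : (Matrix (Fin n) (Fin n) R)ˣ), f (mk U) = g (mk U)) : f = g := by
  apply QuotientAddGroup.addMonoidHom_ext
  apply FreeAbelianGroup.lift_ext
  rintro ⟨n, U⟩
  exact h n U

/-- Homomorphisms out of `K₁(R)`. -/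
noncomputable def lift {M : Type*} [AddCommGroup M]
    (F : ∀ n : ℕ, (Matrix (Fin n) (Fin n) R)ˣ → M)
    (hmul : ∀ (n : ℕ) (U V : (Matrix (Fin n) (Fin n) R)ˣ), F n (U * V) = F n U + F n V)
    (hstab : ∀ (n : ℕ) (U : (Matrix (Fin n) (Fin n) R)ˣ), F (n + 1) (stab U) = F n U) :
    K1 R →+ M :=
  QuotientAddGroup.lift (K1Rel R) (FreeAbelianGroup.lift fun x : GLAll R => F x.1 x.2) (by
    rw [K1Rel, AddSubgroup.closure_le]
    rintro z (⟨n, U, V, rfl⟩ | ⟨n, U, rfl⟩)
    · change FreeAbelianGroup.lift _ _ = 0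
      rw [map_sub, map_sub, FreeAbelianGroup.lift_apply_of, FreeAbelianGroup.lift_apply_of,
        FreeAbelianGroup.lift_apply_of, hmul]
      abel
    · change FreeAbelianGroup.lift _ _ = 0
      rw [map_sub, FreeAbelianGroup.lift_apply_of, FreeAbelianGroup.lift_apply_of, hstab, sub_self])

theorem lift_mk {M : Type*} [AddCommGroup M]
    (F : ∀ n : ℕ, (Matrix (Fin n) (Fin n) R)ˣ → M)
    (hmul : ∀ (n : ℕ) (U V : (Matrix (Fin n) (Fin n) R)ˣ), F n (U * V) = F n U + F n V)
    (hstab : ∀ (n : ℕ) (U : (Matrix (Fin n) (Fin n) R)ˣ), F (n + 1) (stab U) = F n U)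
    {n : ℕ} (U : (Matrix (Fin n) (Fin n) R)ˣ) : lift F hmul hstab (mk U) = F n U := by
  change FreeAbelianGroup.lift _ _ = _
  rw [FreeAbelianGroup.lift_apply_of]

/-- The image of an invertible matrix under a ring homomorphism. -/
def mapU {ι : Type*} [Fintype ι] [DecidableEq ι] (f : R →+* S) : (Matrix ι ι R)ˣ →* (Matrix ι ι S)ˣ :=
  Units.map (f.mapMatrix : Matrix ι ι R →+* Matrix ι ι S).toMonoidHom

theorem stab_mapU {n : ℕ} (f : R →+* S) (U : (Matrix (Fin n) (Fin n) R)ˣ) :
    mapU f (stab U) = stab (mapU f U) := by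
  apply Units.ext
  change (stabMat U.val).map f = stabMat (U.val.map f)
  rw [stabMat, stabMat, Matrix.reindex_apply, Matrix.reindex_apply, ← Matrix.submatrix_map,
    Matrix.fromBlocks_map]
  congr 2
  · ext i j; simp
  · ext i j; simp
  · ext i j; simp [Matrix.one_apply]

/-- The homomorphism `K₁(R) → K₁(S)` induced by a ring homomorphism `R → S`. -/
noncomputable def map (f : R →+* S) : K1 R →+ K1 S :=
  lift (fun _ U => mk (mapU f U)) (fun n U V => by rw [map_mul, mk_mul])
    (fun n U => by rw [stab_mapU, mk_stab])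

theorem map_mk (f : R →+* S) {n : ℕ} (U : (Matrix (Fin n) (Fin n) R)ˣ) :
    map f (mk U) = mk (mapU f U) := lift_mk _ _ _ U

theorem map_comp (g : S →+* T) (f : R →+* S) : map (g.comp f) = (map g).comp (map f) := by
  apply hom_ext
  intro n U
  rw [AddMonoidHom.comp_apply, map_mk, map_mk, map_mk]
  rfl

theorem map_map (g : S →+* T) (f : R →+* S) (x : K1 R) : map g (map f x) = map (g.comp f) x := by
  rw [map_comp]
  rfl

/-- The class of the `1 × 1` matrix of a unit. -/
def unit (r : Rˣ) : K1 R := mk (Units.map (Matrix.scalar (Fin 1)).toMonoidHom r)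

theorem unit_mul (r s : Rˣ) : unit (r * s) = unit r + unit s := by
  rw [unit, map_mul, mk_mul]
  rfl

theorem map_unit (f : R →+* S) (r : Rˣ) :
    map f (unit r) = unit (Units.map f.toMonoidHom r) := by
  rw [unit, map_mk, unit]
  congr 1
  apply Units.ext
  change ((Matrix.scalar (Fin 1)) (r : R)).map f = (Matrix.scalar (Fin 1)) (f (r : R))
  ext i j
  simp [Matrix.scalar_apply, Matrix.diagonal_apply, apply_ite f]

end K1

end K1

section Wh

/-- The element `g` of the group as a unit of the group ring. -/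
noncomputable def grpUnit (G : Type v) [Group G] : G →* (MonoidAlgebra ℤ G)ˣ :=
  (Units.map (MonoidAlgebra.of ℤ G)).comp toUnits.toMonoidHom

/-- The subgroup of `K₁(ℤ[G])` generated by the classes of `-1` and of the elements of `G`. -/
noncomputable def WhRel (G : Type v) [Group G] : AddSubgroup (K1 (MonoidAlgebra ℤ G)) :=
  AddSubgroup.closure ({K1.unit (-1)} ∪ Set.range fun g : G => K1.unit (grpUnit G g))

/-- The Whitehead group of `G`. -/
def Wh (G : Type v) [Group G] : Type v := K1 (MonoidAlgebra ℤ G) ⧸ WhRel G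

noncomputable instance instWh (G : Type v) [Group G] : AddCommGroup (Wh G) :=
  QuotientAddGroup.Quotient.addCommGroup (WhRel G)

variable {G : Type v} [Group G] {H : Type v} [Group H] {L : Type v} [Group L]

/-- The homomorphism `K₁(ℤ[G]) → K₁(ℤ[H])` induced by a group homomorphism `G → H`. -/
noncomputable def ind (φ : G →* H) : K1 (MonoidAlgebra ℤ G) →+ K1 (MonoidAlgebra ℤ H) :=
  K1.map (MonoidAlgebra.mapDomainRingHom ℤ φ)

theorem ind_grpUnit (φ : G →* H) (g : G) :
    ind φ (K1.unit (grpUnit G g)) = K1.unit (grpUnit H (φ g)) := by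
  rw [ind, K1.map_unit]
  congr 1
  apply Units.ext
  change MonoidAlgebra.mapDomain φ (MonoidAlgebra.single g 1) = MonoidAlgebra.single (φ g) 1
  rw [MonoidAlgebra.mapDomain_single]

theorem ind_neg_one (φ : G →* H) : ind φ (K1.unit (-1)) = K1.unit (-1) := by
  rw [ind, K1.map_unit]
  congr 1
  apply Units.ext
  change (MonoidAlgebra.mapDomainRingHom ℤ φ) (-1) = -1
  rw [map_neg, map_one]

/-- The homomorphism `Wh(G) → Wh(H)` induced by a group homomorphism `G → H`. -/
noncomputable def Wh.map (φ : G →* H) : Wh G →+ Wh H :=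
  QuotientAddGroup.lift (WhRel G) ((QuotientAddGroup.mk' (WhRel H)).comp (ind φ)) (by
    rw [WhRel, AddSubgroup.closure_le]
    rintro z (hz | ⟨g, rfl⟩)
    · change QuotientAddGroup.mk' (WhRel H) (ind φ z) = 0
      rw [Set.mem_singleton_iff] at hz
      rw [hz, ind_neg_one]
      exact (QuotientAddGroup.eq_zero_iff _).2
        (AddSubgroup.subset_closure (Or.inl (Set.mem_singleton _)))
    · change QuotientAddGroup.mk' (WhRel H) (ind φ (K1.unit (grpUnit G g))) = 0
      rw [ind_grpUnit]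
      exact (QuotientAddGroup.eq_zero_iff _).2
        (AddSubgroup.subset_closure (Or.inr ⟨φ g, rfl⟩)))

/-- The projection `K₁(ℤ[G]) → Wh(G)`. -/
noncomputable def Wh.mk (G : Type v) [Group G] : K1 (MonoidAlgebra ℤ G) →+ Wh G :=
  QuotientAddGroup.mk' (WhRel G)

theorem Wh.map_mk (φ : G →* H) (x : K1 (MonoidAlgebra ℤ G)) :
    Wh.map φ (Wh.mk G x) = Wh.mk H (ind φ x) := rfl

theorem Wh.mk_surjective : Function.Surjective (Wh.mk G) := QuotientAddGroup.mk_surjective

end Wh

section Assembly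

/-- The subgroups in a family. -/
abbrev FamSub (G : Type v) [Group G] (𝓕 : Subgroup G → Prop) : Type v := {F : Subgroup G // 𝓕 F}

/-- The homomorphism `F → F'`, `x ↦ g x g⁻¹`, for subgroups with `g F g⁻¹ ⊆ F'`. -/
def conjHom {G : Type v} [Group G] (g : G) (F F' : Subgroup G)
    (h : ∀ x ∈ F, g * x * g⁻¹ ∈ F') : F →* F' where
  toFun x := ⟨g * x * g⁻¹, h x x.2⟩
  map_one' := by ext; simp
  map_mul' x y := by ext; simp [mul_assoc]

variable (G : Type v) [Group G] (𝓕 : Subgroup G → Prop)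

/-- `⨁_F Wh(F)` over the subgroups `F` in the family `𝓕`. -/
abbrev SumWh : Type v := DirectSum (FamSub G 𝓕) (fun F => Wh F.1)

/-- The inclusion of the summand of `F`. -/
noncomputable def inc (F : FamSub G 𝓕) : Wh F.1 →+ SumWh G 𝓕 :=
  open scoped Classical in DirectSum.of (fun F : FamSub G 𝓕 => Wh F.1) F

/-- The relation `c_g(x) - x` of the colimit. -/
noncomputable def rel (F F' : FamSub G 𝓕) (g : G) (h : ∀ x ∈ F.1, g * x * g⁻¹ ∈ F'.1)
    (x : Wh F.1) : SumWh G 𝓕 :=
  inc G 𝓕 F' (Wh.map (conjHom g F.1 F'.1 h) x) - inc G 𝓕 F x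

/-- The relations of the colimit: `c_g(x) = x` for `x ∈ Wh(F)`, `g F g⁻¹ ⊆ F'`. -/
noncomputable def colimRel : AddSubgroup (SumWh G 𝓕) :=
  AddSubgroup.closure {z | ∃ F F' g h x, z = rel G 𝓕 F F' g h x}

/-- The colimit of `Wh(F)` over the subgroups `F` in the family `𝓕`. -/
def ColimWh : Type v := SumWh G 𝓕 ⧸ colimRel G 𝓕

noncomputable instance instColimWh : AddCommGroup (ColimWh G 𝓕) :=
  QuotientAddGroup.Quotient.addCommGroup (colimRel G 𝓕)

/-- The assembly map on the direct sum, given by the inclusions `F → G`. -/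
noncomputable def assemblySum : SumWh G 𝓕 →+ Wh G :=
  open scoped Classical in
  DirectSum.toAddMonoid fun F : FamSub G 𝓕 => Wh.map F.1.subtype

theorem assemblySum_inc (F : FamSub G 𝓕) (x : Wh F.1) :
    assemblySum G 𝓕 (inc G 𝓕 F x) = Wh.map F.1.subtype x := by
  classical
  rw [assemblySum, inc, DirectSum.toAddMonoid_of]

end Assembly

/-- Ring homomorphisms that are conjugate by a unit induce the same map on `K₁`. -/
theorem K1_map_conj {R : Type u} [Ring R] {S : Type v} [Ring S] (f f' : R →+* S) (a b : S)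
    (hab : a * b = 1) (hba : b * a = 1) (h : ∀ r, f' r = a * f r * b) (x : K1 R) :
    K1.map f' x = K1.map f x := by
  suffices H : K1.map f' = K1.map f from congrArg (fun f : K1 R →+ K1 S => f x) H
  apply K1.hom_ext
  intro n U
  rw [K1.map_mk, K1.map_mk]
  let A : Sˣ := ⟨a, b, hab, hba⟩
  let P : (Matrix (Fin n) (Fin n) S)ˣ := Units.map (Matrix.scalar (Fin n)).toMonoidHom A
  have h1 : K1.mapU f' U = P * K1.mapU f U * P⁻¹ := by
    apply Units.ext
    change U.val.map f' = (Matrix.scalar (Fin n)) a * U.val.map f * (Matrix.scalar (Fin n)) b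
    refine Matrix.ext fun i j => ?_
    rw [Matrix.scalar_apply, Matrix.scalar_apply, Matrix.mul_diagonal, Matrix.diagonal_mul]
    exact h _
  have h2 : K1.mk P + K1.mk P⁻¹ = 0 := by
    rw [← K1.mk_mul, mul_inv_cancel]
    have h3 : (K1.mk (1 : (Matrix (Fin n) (Fin n) S)ˣ)) =
        K1.mk (1 : (Matrix (Fin n) (Fin n) S)ˣ) + K1.mk (1 : (Matrix (Fin n) (Fin n) S)ˣ) := by
      rw [← K1.mk_mul, one_mul]
    exact left_eq_add.1 h3
  rw [h1, K1.mk_mul, K1.mk_mul, add_right_comm, h2, zero_add]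

theorem single_inv' {G : Type v} [Group G] (g : G) :
    (MonoidAlgebra.single g (1 : ℤ)) * MonoidAlgebra.single g⁻¹ 1 = 1 := by
  rw [MonoidAlgebra.single_mul_single, mul_inv_cancel, one_mul]
  rfl

theorem single_inv {G : Type v} [Group G] (g : G) :
    (MonoidAlgebra.single g⁻¹ (1 : ℤ)) * MonoidAlgebra.single g 1 = 1 := by
  rw [MonoidAlgebra.single_mul_single, inv_mul_cancel, one_mul]
  rfl

theorem ind_conj {G : Type v} [Group G] (g : G) (F F' : Subgroup G)
    (h : ∀ x ∈ F, g * x * g⁻¹ ∈ F') (x : K1 (MonoidAlgebra ℤ F)) :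
    ind F'.subtype (ind (conjHom g F F' h) x) = ind F.subtype x := by
  rw [ind, ind, ind, K1.map_map]
  apply K1_map_conj _ _ (MonoidAlgebra.single g 1) (MonoidAlgebra.single g⁻¹ 1)
    (single_inv' g) (single_inv g)
  intro r
  induction r using MonoidAlgebra.induction_linear with
  | zero => simp
  | add a b ha hb => rw [map_add, ha, hb, map_add, mul_add, add_mul]
  | single s t =>
    change MonoidAlgebra.mapDomain F'.subtype (MonoidAlgebra.mapDomain (conjHom g F F' h)
      (MonoidAlgebra.single s t)) = MonoidAlgebra.single g 1 *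
        MonoidAlgebra.mapDomain F.subtype (MonoidAlgebra.single s t) *
        MonoidAlgebra.single g⁻¹ 1
    rw [MonoidAlgebra.mapDomain_single, MonoidAlgebra.mapDomain_single,
      MonoidAlgebra.mapDomain_single, MonoidAlgebra.single_mul_single,
      MonoidAlgebra.single_mul_single, one_mul, mul_one]
    rfl

section Assembly2

variable (G : Type v) [Group G] (𝓕 : Subgroup G → Prop)

theorem colimRel_le : colimRel G 𝓕 ≤ (assemblySum G 𝓕).ker := by
  rw [colimRel, AddSubgroup.closure_le]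
  rintro z ⟨F, F', g, h, x, rfl⟩
  change assemblySum G 𝓕 _ = 0
  rw [rel, map_sub, assemblySum_inc, assemblySum_inc]
  obtain ⟨x, rfl⟩ := Wh.mk_surjective x
  rw [Wh.map_mk, Wh.map_mk, Wh.map_mk, ind_conj, sub_self]

/-- The assembly map for the family `𝓕`. -/
noncomputable def assembly : ColimWh G 𝓕 →+ Wh G :=
  QuotientAddGroup.lift (colimRel G 𝓕) (assemblySum G 𝓕) (colimRel_le G 𝓕)

/-- The class in the colimit of an element of `Wh(F)`. -/
noncomputable def cl (F : FamSub G 𝓕) : Wh F.1 →+ ColimWh G 𝓕 :=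
  (QuotientAddGroup.mk' (colimRel G 𝓕)).comp (inc G 𝓕 F)

theorem assembly_cl (F : FamSub G 𝓕) (x : Wh F.1) :
    assembly G 𝓕 (cl G 𝓕 F x) = Wh.map F.1.subtype x := by
  change assemblySum G 𝓕 (inc G 𝓕 F x) = _
  rw [assemblySum_inc]

theorem cl_conj (F F' : FamSub G 𝓕) (g : G) (h : ∀ x ∈ F.1, g * x * g⁻¹ ∈ F'.1) (x : Wh F.1) :
    cl G 𝓕 F' (Wh.map (conjHom g F.1 F'.1 h) x) = cl G 𝓕 F x := by
  have h1 : rel G 𝓕 F F' g h x ∈ colimRel G 𝓕 :=
    AddSubgroup.subset_closure ⟨F, F', g, h, x, rfl⟩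
  have h2 : QuotientAddGroup.mk' (colimRel G 𝓕) (rel G 𝓕 F F' g h x) = 0 :=
    (QuotientAddGroup.eq_zero_iff _).2 h1
  rw [rel, map_sub, sub_eq_zero] at h2
  exact h2

end Assembly2

/-- The finite subgroups. -/
def FinSub {G : Type v} [Group G] (F : Subgroup G) : Prop := Finite F

end Pool.Agent.H95.WH
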