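import Pool.Agent.H13.TFQ.M01
import Pool.Agent.H13.TFQ.M05
import Pool.Agent.H13.TFQ.M07

/-!
# Artin's relation between permutation lattices

For a finite group `F` there are cyclic subgroups `D i`, `E j` (two finite families) such that the
permutation lattices `ℤ^{|F|} ⊕ ⨁ᵢ ℤ[F/D i]` and `⨁ⱼ ℤ[F/E j]` are rationally isomorphic: there are
equivariant integral matrices `a`, `b` with `a b = n`, `b a = n`, `n ≠ 0`. (The trivial lattices are
written as `ℤ[F/⊤]`.)

## Paper proof

Let `s` be the set of the cyclic subgroups of `F`. `exists_nu s (fun _ => 1)` gives `ν : Subgroup F → ℤ`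
with `∑_{D ∈ s, C ≤ D} ν D = 1` for all `C ∈ s`; with `C = zpowers h`: `∑_{D ∈ s, h ∈ D} ν D = 1` for all
`h : F`.

For a subgroup `D` let `e_D = (1/|D|) ∑_{h ∈ D} h ∈ ℚ[F]`, an idempotent, and `[e_D] = K0.cls` of the
`1 × 1` matrix. Claim: `|F| • [e_⊤] = ∑_{D ∈ s} (ν D |D|) • [e_D]` in `K0 (ℚ[F])`. By
`K0.eq_zero_of_rk_push` it is enough to compare the ranks of the images under a homomorphism
`ρ : ℚ[F] → Mat_J(ℚ)`. The rank of an idempotent matrix over `ℚ` is its trace (`tr_eq_rk`, or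
directly), so `rk ρ(e_D) = (1/|D|) ∑_{h ∈ D} tr ρ(h)` and the right side is
`∑_D ν D ∑_{h ∈ D} tr ρ(h) = ∑_h tr ρ(h) ∑_{D ∋ h} ν D = ∑_h tr ρ(h)`, the left side.

Bring the negative coefficients to the other side and apply `Pool.Agent.H95.KM.exists_stab`: there are
families `D'` (`|F|` times `⊤`, cyclic subgroups with multiplicities `|ν D| |D|` for `ν D < 0`, and `k` times
the trivial subgroup `⊥`, `e_⊥ = 1`) and `E` (cyclic subgroups: `ν D |D|` times `D` for `ν D > 0`, `k` times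
`⊥`) with `MatEquiv (diagonal e_{D' i}) (diagonal e_{E j})` over `ℚ[F]`: matrices `x`, `y` with
`x y = diag(e_{D' i})`, `y x = diag(e_{E j})`, and, replacing `x` by `diag(e_{D'}) x diag(e_E)` and `y` by
`diag(e_E) y diag(e_{D'})`, `x i j ∈ e_{D' i} ℚ[F] e_{E j}`, `y j i ∈ e_{E j} ℚ[F] e_{D' i}`.

Define `A (i, g D'_i) (j, h E_j) = |E_j| (x i j)(g⁻¹ h)` and
`B (j, h E_j) (i, g D'_i) = |D'_i| (y j i)(h⁻¹ g)`. These are well defined, since the coefficient function
of `x i j` is left `D'_i`-invariant and right `E_j`-invariant, and they are equivariant.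
`(A B) (i, g) (i', g') = ∑_j ∑_{h ∈ F/E_j} |E_j| (x i j)(g⁻¹ h) |D'_{i'}| (y j i')(h⁻¹ g')
= |D'_{i'}| ∑_j ∑_{h ∈ F} (x i j)(g⁻¹ h) (y j i')(h⁻¹ g') = |D'_{i'}| (x y)_{i i'} (g⁻¹ g')
= [i = i'] |D'_i| e_{D'_i}(g⁻¹ g') = [(i, g) = (i', g')]`. In the same way `B A = 1`. Multiply by a common
denominator `d` of the entries of `A` and of `B`: `a = d A`, `b = d B`, `n = d²`.
-/

set_option autoImplicit false

open Matrix
open scoped Classical

universe v

namespace Pool.Agent.H95.WH

open Pool.Agent.H71.FJ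

section ArtRelAlg

variable {F : Type v} [Group F] [Fintype F]

/-- The idempotent of a subgroup. -/
noncomputable def artE (D : Subgroup F) : MonoidAlgebra ℚ F :=
  ∑ h : F, if h ∈ D then MonoidAlgebra.single h ((Nat.card D : ℚ)⁻¹) else 0

private theorem artE_coeff (D : Subgroup F) (g : F) :
    (artE D).coeff g = if g ∈ D then (Nat.card D : ℚ)⁻¹ else 0 := by
  rw [artE, MonoidAlgebra.coeff_sum, Finsupp.finsetSum_apply, Finset.sum_eq_single g]
  · split_ifs
    · rw [MonoidAlgebra.coeff_single, Finsupp.single_eq_same]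
    · rfl
  · intro b _ hb
    split_ifs
    · rw [MonoidAlgebra.coeff_single, Finsupp.single_eq_of_ne (by tauto)]
    · rfl
  · intro h
    exact absurd (Finset.mem_univ _) h

private theorem single_mul_artE (D : Subgroup F) (d : F) (hd : d ∈ D) :
    MonoidAlgebra.single d (1 : ℚ) * artE D = artE D := by
  apply MonoidAlgebra.ext
  ext g
  rw [MonoidAlgebra.coeff_single_mul_apply, one_mul, artE_coeff, artE_coeff,
    D.mul_mem_cancel_left (D.inv_mem hd)]

private theorem artE_mul_single (D : Subgroup F) (d : F) (hd : d ∈ D) :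
    artE D * MonoidAlgebra.single d (1 : ℚ) = artE D := by
  apply MonoidAlgebra.ext
  ext g
  rw [MonoidAlgebra.coeff_mul_single_apply, mul_one, artE_coeff, artE_coeff,
    D.mul_mem_cancel_right (D.inv_mem hd)]

private theorem artE_idem (D : Subgroup F) : artE D * artE D = artE D := by
  nth_rewrite 1 [artE]
  rw [Finset.sum_mul]
  have h1 : ∀ h : F, (if h ∈ D then MonoidAlgebra.single h ((Nat.card D : ℚ)⁻¹) else 0) * artE D =
      if h ∈ D then (Nat.card D : ℚ)⁻¹ • artE D else 0 := by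
    intro h
    split_ifs with hh
    · have : MonoidAlgebra.single h ((Nat.card D : ℚ)⁻¹) =
          (Nat.card D : ℚ)⁻¹ • MonoidAlgebra.single h (1 : ℚ) := by
        rw [MonoidAlgebra.smul_single, smul_eq_mul, mul_one]
      rw [this, smul_mul_assoc, single_mul_artE D h hh]
    · rw [zero_mul]
  simp only [h1]
  rw [← Finset.sum_filter, Finset.sum_const]
  have h2 : (Finset.univ.filter fun h : F => h ∈ D).card = Nat.card D := by
    rw [← Fintype.card_subtype, Nat.card_eq_fintype_card]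
  rw [h2, ← Nat.cast_smul_eq_nsmul ℚ, smul_smul, mul_inv_cancel₀, one_smul]
  exact_mod_cast Nat.card_pos.ne'

theorem artE_bot : artE (⊥ : Subgroup F) = 1 := by
  apply MonoidAlgebra.ext
  ext g
  rw [artE_coeff, MonoidAlgebra.one_def, MonoidAlgebra.coeff_single, Subgroup.mem_bot]
  by_cases hg : g = 1
  · subst hg
    rw [if_pos rfl, Finsupp.single_eq_same]
    simp
  · rw [if_neg hg, Finsupp.single_eq_of_ne (by tauto)]

/-- The diagonal matrix of the idempotents of a family of subgroups. -/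
noncomputable def artM {I : Type} [Fintype I] (D : I → Subgroup F) :
    Matrix I I (MonoidAlgebra ℚ F) := diagonal fun i => artE (D i)

theorem artM_idem {I : Type} [Fintype I] (D : I → Subgroup F) :
    artM D * artM D = artM D := by
  rw [artM, diagonal_mul_diagonal]
  simp only [artE_idem]

/-- The averages of a function over the subgroups. -/
noncomputable def artA (D : Subgroup F) (χ : F → ℚ) : ℚ :=
  (Nat.card D : ℚ)⁻¹ * ∑ h : F, if h ∈ D then χ h else 0

theorem artE_trace {J : Type} [Fintype J] [DecidableEq J]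
    (ρ : MonoidAlgebra ℚ F →ₐ[ℚ] Matrix J J ℚ) (D : Subgroup F) :
    trace (ρ (artE D)) = artA D (fun h => trace (ρ (MonoidAlgebra.single h 1))) := by
  rw [artE, artA, map_sum, trace_sum, Finset.mul_sum]
  apply Finset.sum_congr rfl
  intro h _
  split_ifs
  · have : MonoidAlgebra.single h ((Nat.card D : ℚ)⁻¹) =
        (Nat.card D : ℚ)⁻¹ • MonoidAlgebra.single h (1 : ℚ) := by
      rw [MonoidAlgebra.smul_single, smul_eq_mul, mul_one]
    rw [this, map_smul, trace_smul, smul_eq_mul]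
  · rw [map_zero, trace_zero, mul_zero]

theorem nilKer_id : NilKer (RingHom.id ℚ) := by
  refine ⟨1, fun j => if j = 0 then ⊤ else ⊥, fun _ => ?_, fun x hx => ?_, fun j x y hx _ => ?_⟩
  · simp
  · simpa using hx
  · have : x = 0 := hx
    subst this
    simp

/-- Convolution data. -/
private theorem art_conv {I J : Type} [Fintype I] [Fintype J] (D : I → Subgroup F)
    (E : J → Subgroup F) (h : MatEquiv (artM D) (artM E)) :
    ∃ (u : I → J → F → ℚ) (v : J → I → F → ℚ),
      (∀ i j, ∀ d ∈ D i, ∀ e ∈ E j, ∀ t, u i j (d * t * e) = u i j t) ∧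
      (∀ j i, ∀ e ∈ E j, ∀ d ∈ D i, ∀ t, v j i (e * t * d) = v j i t) ∧
      (∀ i i' g, ∑ j, ∑ y : F, u i j y * v j i' (y⁻¹ * g) =
        if i = i' ∧ g ∈ D i then (Nat.card (D i) : ℚ)⁻¹ else 0) ∧
      (∀ j j' g, ∑ i, ∑ y : F, v j i y * u i j' (y⁻¹ * g) =
        if j = j' ∧ g ∈ E j then (Nat.card (E j) : ℚ)⁻¹ else 0) := by
  obtain ⟨x, y, hxy, hyx⟩ := h
  have inv : ∀ {I J : Type} [Fintype I] [Fintype J] (D : I → Subgroup F) (E : J → Subgroup F)
      (x : Matrix I J (MonoidAlgebra ℚ F)) (i : I) (j : J), ∀ d ∈ D i, ∀ e ∈ E j, ∀ t,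
      ((artM D * x * artM E) i j).coeff (d * t * e) = ((artM D * x * artM E) i j).coeff t := by
    intro I J _ _ D E x i j d hd e he t
    have h1 : (artM D * x * artM E) i j = artE (D i) * x i j * artE (E j) := by
      rw [artM, artM, mul_diagonal, diagonal_mul]
    rw [h1]
    have h2 : artE (D i) * x i j * artE (E j) =
        MonoidAlgebra.single d⁻¹ (1 : ℚ) * (artE (D i) * x i j * artE (E j)) *
          MonoidAlgebra.single e⁻¹ (1 : ℚ) := by
      calc artE (D i) * x i j * artE (E j)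
          = (MonoidAlgebra.single d⁻¹ (1 : ℚ) * artE (D i)) * x i j *
            (artE (E j) * MonoidAlgebra.single e⁻¹ (1 : ℚ)) := by
            rw [artE_mul_single _ _ ((E j).inv_mem he), single_mul_artE _ _ ((D i).inv_mem hd)]
        _ = _ := by simp only [mul_assoc]
    conv_rhs => rw [h2]
    rw [MonoidAlgebra.coeff_mul_single_apply, MonoidAlgebra.coeff_single_mul_apply, mul_one,
      one_mul, inv_inv, inv_inv, ← mul_assoc]
  have prod : ∀ {I J : Type} [Fintype I] [Fintype J] (D : I → Subgroup F) (E : J → Subgroup F)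
      (x : Matrix I J (MonoidAlgebra ℚ F)) (y : Matrix J I (MonoidAlgebra ℚ F)),
      x * y = artM D → y * x = artM E →
      (artM D * x * artM E) * (artM E * y * artM D) = artM D := by
    intro I J _ _ D E x y hxy hyx
    have hE := artM_idem E
    calc (artM D * x * artM E) * (artM E * y * artM D)
        = artM D * x * (artM E * artM E) * y * artM D := by simp only [Matrix.mul_assoc]
      _ = artM D * x * (y * x) * y * artM D := by rw [hE, hyx]
      _ = artM D * (x * y) * (x * y) * artM D := by simp only [Matrix.mul_assoc]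
      _ = artM D := by rw [hxy, artM_idem, artM_idem, artM_idem]
  have coef : ∀ {I J : Type} [Fintype I] [Fintype J] (D : I → Subgroup F)
      (x : Matrix I J (MonoidAlgebra ℚ F)) (y : Matrix J I (MonoidAlgebra ℚ F)),
      x * y = artM D → ∀ i i' g, ∑ j, ∑ z : F, (x i j).coeff z * (y j i').coeff (z⁻¹ * g) =
        if i = i' ∧ g ∈ D i then (Nat.card (D i) : ℚ)⁻¹ else 0 := by
    intro I J _ _ D x y hxy i i' g
    have h1 : ∀ j, ∑ z : F, (x i j).coeff z * (y j i').coeff (z⁻¹ * g) =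
        (x i j * y j i').coeff g := by
      intro j
      rw [MonoidAlgebra.coeff_mul_apply_left, Finsupp.sum_fintype]
      intro z
      rw [zero_mul]
    simp only [h1]
    rw [← Finsupp.finsetSum_apply, ← MonoidAlgebra.coeff_sum, ← Matrix.mul_apply, hxy, artM,
      diagonal_apply]
    by_cases hi : i = i'
    · subst hi
      rw [if_pos rfl, artE_coeff]
      simp
    · rw [if_neg hi, if_neg (fun hh => hi hh.1)]
      rfl
  refine ⟨fun i j t => ((artM D * x * artM E) i j).coeff t,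
    fun j i t => ((artM E * y * artM D) j i).coeff t, ?_, ?_, ?_, ?_⟩
  · exact fun i j d hd e he t => inv D E x i j d hd e he t
  · exact fun j i e he d hd t => inv E D y j i e he d hd t
  · exact coef D _ _ (prod D E x y hxy hyx)
  · exact coef E _ _ (prod E D y x hyx hxy)

/-- The matrix of a family of functions on the group. -/
private noncomputable def artN {I J : Type} (D : I → Subgroup F) (E : J → Subgroup F)
    (u : I → J → F → ℚ) : Matrix (Σ i, F ⧸ D i) (Σ j, F ⧸ E j) ℚ :=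
  Matrix.of fun x y => (Nat.card (E y.1) : ℚ) * u x.1 y.1 (x.2.out⁻¹ * y.2.out)

private theorem artN_mul {I J : Type} [Fintype I] [Fintype J] (D : I → Subgroup F)
    (E : J → Subgroup F) [Fintype (Σ i, F ⧸ D i)] [Fintype (Σ j, F ⧸ E j)]
    (u : I → J → F → ℚ) (v : J → I → F → ℚ)
    (hu : ∀ i j, ∀ e ∈ E j, ∀ t, u i j (t * e) = u i j t)
    (hv : ∀ j i, ∀ e ∈ E j, ∀ t, v j i (e * t) = v j i t)
    (huv : ∀ i i' g, ∑ j, ∑ y : F, u i j y * v j i' (y⁻¹ * g) =
        if i = i' ∧ g ∈ D i then (Nat.card (D i) : ℚ)⁻¹ else 0) :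
    artN D E u * artN E D v = 1 := by
  ext ⟨i, q⟩ ⟨i', q'⟩
  rw [Matrix.mul_apply]
  have e0 : ∀ f : (Σ j, F ⧸ E j) → ℚ, ∑ x, f x = ∑ j, ∑ r : F ⧸ E j, f ⟨j, r⟩ := by
    intro f
    have h1 := Fintype.sum_sigma f
    rw [← h1]
    exact Finset.sum_congr (by ext; simp) (fun _ _ => rfl)
  rw [e0]
  have e1 : ∀ j, ∑ r : F ⧸ E j, artN D E u ⟨i, q⟩ ⟨j, r⟩ * artN E D v ⟨j, r⟩ ⟨i', q'⟩ =
      (Nat.card (D i') : ℚ) * ∑ y : F, u i j y * v j i' (y⁻¹ * (q.out⁻¹ * q'.out)) := by
    intro j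
    have h1 : ∑ y : F, u i j y * v j i' (y⁻¹ * (q.out⁻¹ * q'.out)) =
        ∑ y : F, u i j (q.out⁻¹ * y) * v j i' (y⁻¹ * q'.out) := by
      rw [← Equiv.sum_comp (Equiv.mulLeft q.out⁻¹)
        (fun y => u i j y * v j i' (y⁻¹ * (q.out⁻¹ * q'.out)))]
      apply Finset.sum_congr rfl
      intro y _
      simp only [Equiv.coe_mulLeft]
      congr 2
      group
    rw [h1, sum_out (E j) (fun y => u i j (q.out⁻¹ * y) * v j i' (y⁻¹ * q'.out))]
    · rw [nsmul_eq_mul, Finset.mul_sum, Finset.mul_sum]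
      apply Finset.sum_congr rfl
      intro r _
      simp only [artN, of_apply]
      ring
    · intro y d hd
      rw [← mul_assoc, hu i j d hd, _root_.mul_inv_rev, mul_assoc, hv j i' d⁻¹ ((E j).inv_mem hd)]
  simp only [e1]
  rw [← Finset.mul_sum, huv, Matrix.one_apply]
  by_cases hi : i = i'
  · subst hi
    have h2 : q.out⁻¹ * q'.out ∈ D i ↔ q = q' := by
      rw [← QuotientGroup.eq, QuotientGroup.out_eq', QuotientGroup.out_eq']
    by_cases hq : q = q'
    · rw [if_pos ⟨rfl, h2.2 hq⟩, if_pos (by rw [hq]), mul_inv_cancel₀]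
      exact_mod_cast Nat.card_pos.ne'
    · rw [if_neg (fun hh => hq (h2.1 hh.2)), if_neg, mul_zero]
      intro hh
      apply hq
      simpa using hh
  · rw [if_neg (fun hh => hi hh.1), if_neg, mul_zero]
    intro hh
    exact hi (congrArg Sigma.fst hh)

omit [Fintype F] in
private theorem out_smul (D : Subgroup F) (h : F) (q : F ⧸ D) :
    ∃ d ∈ D, (h • q).out = h * q.out * d := by
  obtain ⟨d, hd⟩ := QuotientGroup.mk_out_eq_mul D (h * q.out)
  refine ⟨d, d.2, ?_⟩
  rw [← hd]
  congr 1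
  conv_lhs => rw [← QuotientGroup.out_eq' q]
  rfl

omit [Fintype F] in
private theorem artN_smul {I J : Type} (D : I → Subgroup F) (E : J → Subgroup F)
    (u : I → J → F → ℚ)
    (hu : ∀ i j, ∀ d ∈ D i, ∀ e ∈ E j, ∀ t, u i j (d * t * e) = u i j t) (h : F) (x y) :
    artN D E u (h • x) (h • y) = artN D E u x y := by
  obtain ⟨i, q⟩ := x
  obtain ⟨j, r⟩ := y
  obtain ⟨d, hd, hd'⟩ := out_smul (D i) h q
  obtain ⟨e, he, he'⟩ := out_smul (E j) h r
  change (Nat.card (E j) : ℚ) * u i j ((h • q).out⁻¹ * (h • r).out) =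
    (Nat.card (E j) : ℚ) * u i j (q.out⁻¹ * r.out)
  rw [hd', he']
  congr 1
  have : (h * q.out * d)⁻¹ * (h * r.out * e) = d⁻¹ * (q.out⁻¹ * r.out) * e := by group
  rw [this]
  exact hu i j d⁻¹ ((D i).inv_mem hd) e he _

/-- Clearing denominators. -/
private theorem art_clear {m n : Type*} [Fintype m] [Fintype n] (A : Matrix m n ℚ) :
    ∃ (d : ℕ) (a : Matrix m n ℤ), d ≠ 0 ∧ ∀ x y, (a x y : ℚ) = d * A x y := by
  refine ⟨∏ p : m × n, (A p.1 p.2).den, Matrix.of fun x y =>
    ((∏ p : m × n, (A p.1 p.2).den) / (A x y).den : ℕ) * (A x y).num, ?_, ?_⟩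
  · rw [Finset.prod_ne_zero_iff]
    exact fun p _ => (A p.1 p.2).den_ne_zero
  · intro x y
    have hdvd : (A x y).den ∣ ∏ p : m × n, (A p.1 p.2).den :=
      Finset.dvd_prod_of_mem (fun p : m × n => (A p.1 p.2).den) (Finset.mem_univ (x, y))
    obtain ⟨c, hc⟩ := hdvd
    rw [Matrix.of_apply, hc, Nat.mul_div_cancel_left _ (A x y).den_pos]
    push_cast
    have h1 : ((A x y).num : ℚ) = A x y * (A x y).den := (Rat.mul_den_eq_num _).symm
    rw [h1]
    ring

theorem art_int {I J : Type} [Fintype I] [Fintype J] (D : I → Subgroup F)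
    (E : J → Subgroup F) [Fintype (Σ i, F ⧸ D i)] [Fintype (Σ j, F ⧸ E j)]
    (h : MatEquiv (artM D) (artM E)) :
    ∃ (a : Matrix (Σ i, F ⧸ D i) (Σ j, F ⧸ E j) ℤ) (b : Matrix (Σ j, F ⧸ E j) (Σ i, F ⧸ D i) ℤ)
      (n : ℕ), n ≠ 0 ∧ a * b = (n : ℤ) • 1 ∧ b * a = (n : ℤ) • 1 ∧
        ∀ (h : F) x y, a (h • x) (h • y) = a x y := by
  obtain ⟨u, v, hu, hv, huv, hvu⟩ := art_conv D E h
  have hAB : artN D E u * artN E D v = 1 := artN_mul D E u v
    (fun i j e he t => by simpa using hu i j 1 (D i).one_mem e he t)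
    (fun j i e he t => by simpa using hv j i e he 1 (D i).one_mem t) huv
  have hBA : artN E D v * artN D E u = 1 := artN_mul E D v u
    (fun j i d hd t => by simpa using hv j i 1 (E j).one_mem d hd t)
    (fun i j d hd t => by simpa using hu i j d hd 1 (E j).one_mem t) hvu
  obtain ⟨d, a, hd, ha⟩ := art_clear (artN D E u)
  obtain ⟨e, b, he, hb⟩ := art_clear (artN E D v)
  have ha' : a.map (Int.cast : ℤ → ℚ) = (d : ℚ) • artN D E u := by
    ext x y
    rw [Matrix.map_apply, ha, Matrix.smul_apply, smul_eq_mul]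
  have hb' : b.map (Int.cast : ℤ → ℚ) = (e : ℚ) • artN E D v := by
    ext x y
    rw [Matrix.map_apply, hb, Matrix.smul_apply, smul_eq_mul]
  have inj : ∀ {m : Type v} [Fintype m] [DecidableEq m] (c : Matrix m m ℤ),
      c.map (Int.cast : ℤ → ℚ) = ((d * e : ℕ) : ℚ) • 1 → c = ((d * e : ℕ) : ℤ) • 1 := by
    intro m _ _ c hc
    ext x y
    have h1 := congrFun (congrFun hc x) y
    rw [Matrix.map_apply, Matrix.smul_apply, smul_eq_mul] at h1
    rw [Matrix.smul_apply, smul_eq_mul]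
    have h2 : ((c x y : ℤ) : ℚ) = ((((d * e : ℕ) : ℤ) * (1 : Matrix m m ℤ) x y : ℤ) : ℚ) := by
      rw [h1]
      push_cast
      congr 1
      rw [Matrix.one_apply, Matrix.one_apply]
      split_ifs <;> simp
    exact_mod_cast h2
  refine ⟨a, b, d * e, Nat.mul_ne_zero hd he, ?_, ?_, ?_⟩
  · apply inj
    have : (a * b).map (Int.cast : ℤ → ℚ) = a.map (Int.cast : ℤ → ℚ) * b.map (Int.cast : ℤ → ℚ) :=
      Matrix.map_mul (f := Int.castRingHom ℚ)
    rw [this, ha', hb', Matrix.smul_mul, Matrix.mul_smul, hAB, smul_smul]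
    push_cast
    rfl
  · apply inj
    have : (b * a).map (Int.cast : ℤ → ℚ) = b.map (Int.cast : ℤ → ℚ) * a.map (Int.cast : ℤ → ℚ) :=
      Matrix.map_mul (f := Int.castRingHom ℚ)
    rw [this, ha', hb', Matrix.smul_mul, Matrix.mul_smul, hBA, smul_smul]
    push_cast
    rw [mul_comm (e : ℚ)]
  · intro g x y
    have h1 := artN_smul D E u hu g x y
    have h2 : ((a (g • x) (g • y) : ℤ) : ℚ) = ((a x y : ℤ) : ℚ) := by
      rw [ha, ha, h1]
    exact_mod_cast h2

end ArtRelAlg

theorem art_count (F : Type v) [Group F] [Fintype F] :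
    ∃ (I J : Type) (_ : Fintype I) (_ : Fintype J) (D : I → Subgroup F) (E : J → Subgroup F),
      (∀ i, IsCyclic (D i)) ∧ (∀ j, IsCyclic (E j)) ∧
      ∀ χ : F → ℚ, ∑ h, χ h + ∑ i, artA (D i) χ = ∑ j, artA (E j) χ := by
  let s : Finset (Subgroup F) := Finset.univ.filter fun D => IsCyclic D
  obtain ⟨ν, hν⟩ := exists_nu s (fun _ => 1)
  let t : Fin s.card ≃ s := s.equivFin.symm
  have hcyc : ∀ k : Fin s.card, IsCyclic (t k : Subgroup F) := fun k =>
    (Finset.mem_filter.1 (t k).2).2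
  let c : Subgroup F → ℤ := fun D => ν D * Nat.card D
  refine ⟨Σ k : Fin s.card, Fin (-(c (t k))).toNat, Σ k : Fin s.card, Fin (c (t k)).toNat,
    inferInstance, inferInstance, fun x => t x.1, fun x => t x.1, fun x => hcyc x.1,
    fun x => hcyc x.1, ?_⟩
  intro χ
  have h1 : ∀ n : Fin s.card → ℕ, ∑ x : (Σ k : Fin s.card, Fin (n k)),
      artA (t x.1 : Subgroup F) χ = ∑ k, (n k : ℚ) * artA (t k : Subgroup F) χ := by
    intro n
    rw [Fintype.sum_sigma]
    apply Finset.sum_congr rfl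
    intro k _
    change ∑ _y : Fin (n k), artA (t k : Subgroup F) χ = _
    rw [Finset.sum_const, Finset.card_univ, Fintype.card_fin, nsmul_eq_mul]
  rw [h1, h1]
  have h2 : ∑ h, χ h = ∑ k, (c (t k) : ℚ) * artA (t k : Subgroup F) χ := by
    rw [Equiv.sum_comp t (fun D : s => (c D : ℚ) * artA (D : Subgroup F) χ),
      Finset.sum_coe_sort s (fun D => (c D : ℚ) * artA D χ)]
    have h3 : ∀ D ∈ s, (c D : ℚ) * artA D χ = ∑ h : F, if h ∈ D then (ν D : ℚ) * χ h else 0 := by
      intro D _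
      have h4 : (Nat.card D : ℚ) ≠ 0 := by exact_mod_cast Nat.card_pos.ne'
      simp only [c, artA]
      push_cast
      rw [mul_assoc, ← mul_assoc (Nat.card D : ℚ), mul_inv_cancel₀ h4, one_mul, Finset.mul_sum]
      apply Finset.sum_congr rfl
      intro h _
      split_ifs <;> simp
    rw [Finset.sum_congr rfl h3, Finset.sum_comm]
    apply Finset.sum_congr rfl
    intro h _
    rw [← Finset.sum_filter, ← Finset.sum_mul]
    have h5 : Subgroup.zpowers h ∈ s := Finset.mem_filter.2 ⟨Finset.mem_univ _, inferInstance⟩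
    have h6 := hν _ h5
    have h7 : s.filter (fun D => Subgroup.zpowers h ≤ D) = s.filter (fun D => h ∈ D) := by
      ext D
      simp only [Finset.mem_filter, Subgroup.zpowers_le]
    rw [h7] at h6
    have h8 : (∑ D ∈ s.filter (fun D => h ∈ D), (ν D : ℚ)) = 1 := by exact_mod_cast h6
    rw [h8, one_mul]
  rw [h2, ← Finset.sum_add_distrib]
  apply Finset.sum_congr rfl
  intro k _
  rw [← add_mul]
  congr 1
  have h9 : (c (t k) : ℤ) + ((-(c (t k))).toNat : ℤ) = ((c (t k)).toNat : ℤ) := by omega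
  exact_mod_cast h9

theorem smul_one_inst {m : Type v} (i1 i2 : DecidableEq m) (n : ℤ) :
    n • (@OfNat.ofNat (Matrix m m ℤ) 1 (@One.toOfNat1 _ (@Matrix.one m ℤ i1 _ _))) =
      n • (@OfNat.ofNat (Matrix m m ℤ) 1 (@One.toOfNat1 _ (@Matrix.one m ℤ i2 _ _))) := by
  rw [Subsingleton.elim i1 i2]

end Pool.Agent.H95.WH
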