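import Pool.Agent.H13.TFQ.M22
import Pool.Agent.H13.TFQ.M97

/-!
# Artin induction for `K₁(ℤ[F]) ⊗ ℚ`

## Paper proof

Take the data of `exists_artin_rel`. Apply `inter` to `φ = twR ℤ (Σ i, F ⧸ D' i)`,
`ψ = twR ℤ (Σ j, F ⧸ E j)` (`D' = Sum.elim ⊤ D`); the intertwining property for `single h r` is the
equivariance of `a`: `(φ(h) a)(x, y) = h a(h⁻¹ x, y)`, `(a ψ(h))(x, y) = a(x, h y) h`. `hpow` is `pow_mod`.
By `push_tw_sigma`, `push_tw_top`, `ind_res1`:
`m • (|F| • x + ∑ᵢ ind (res_{D i} x)) = m • ∑ⱼ ind (res_{E j} x)`. So `m |F| • x` is a sum of elements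
`ind y`, `y = ± m • res x`.
-/

set_option autoImplicit false

open Matrix
open scoped Classical

universe v

namespace Pool.Agent.H95.WH

open Pool.Agent.H71.FJ (lamR twR incl tw tw_single)

/-- An equivariant integral matrix intertwines the twisted permutation representations. -/
private theorem artK_intertwine {F : Type v} [Group F] {X Y : Type v} [Fintype X] [Fintype Y]
    [DecidableEq X] [DecidableEq Y] [MulAction F X] [MulAction F Y] (a : Matrix X Y ℤ) (ha : ∀ (h : F) x y, a (h • x) (h • y) = a x y)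
    (r : MonoidAlgebra ℤ F) :
    twR ℤ X r * a.map (Int.castRingHom (MonoidAlgebra ℤ F)) =
      a.map (Int.castRingHom (MonoidAlgebra ℤ F)) * twR ℤ Y r := by
  induction r using MonoidAlgebra.induction_linear with
  | zero => simp
  | add u w hu hw => rw [map_add, map_add, Matrix.add_mul, Matrix.mul_add, hu, hw]
  | single h r =>
    ext x y : 1
    rw [Matrix.mul_apply, Matrix.mul_apply]
    have e1 : ∀ z : X, twR ℤ X (MonoidAlgebra.single h r) x z =
        if x = h • z then MonoidAlgebra.single h r else 0 := fun z => tw_single ℤ X h r x z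
    have e2 : ∀ z : Y, twR ℤ Y (MonoidAlgebra.single h r) z y =
        if z = h • y then MonoidAlgebra.single h r else 0 := fun z => tw_single ℤ Y h r z y
    rw [Finset.sum_eq_single (h⁻¹ • x), Finset.sum_eq_single (h • y)]
    · rw [e1, e2, if_pos rfl, if_pos (by rw [smul_inv_smul]), Matrix.map_apply, Matrix.map_apply,
        ← ha h (h⁻¹ • x) y, smul_inv_smul]
      exact (Int.cast_commute (a x (h • y)) (MonoidAlgebra.single h r)).eq.symm
    · intro z _ hz
      rw [e2, if_neg hz, mul_zero]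
    · intro hh
      exact absurd (Finset.mem_univ _) hh
    · intro z _ hz
      rw [e1, if_neg, zero_mul]
      intro hx
      apply hz
      rw [hx, inv_smul_smul]
    · intro hh
      exact absurd (Finset.mem_univ _) hh

private theorem artK_push_sigma {F : Type v} [Group F] {I : Type} [Fintype I] (D : I → Subgroup F)
    [∀ i, Fintype (F ⧸ D i)] [Fintype (Σ i, F ⧸ D i)] (x : K1 (MonoidAlgebra ℤ F)) :
    K1.push (twR ℤ (Σ i, F ⧸ D i)) x = ∑ i, ind (D i).subtype (K1.push (lamR ℤ (D i)) x) := by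
  rw [push_tw_sigma]
  exact Finset.sum_congr rfl fun i _ => (ind_res1 (D i) x).symm

private theorem artK_main {F : Type v} [Group F] [Finite F] {X Y : Type v} [Fintype X] [Fintype Y]
    [DecidableEq X] [DecidableEq Y] [MulAction F X] [MulAction F Y] (a : Matrix X Y ℤ)
    (b : Matrix Y X ℤ) (n : ℕ) (hn : n ≠ 0) (hab : a * b = (n : ℤ) • 1)
    (hba : b * a = (n : ℤ) • 1) (ha : ∀ (h : F) x y, a (h • x) (h • y) = a x y)
    (x : K1 (MonoidAlgebra ℤ F)) :
    ∃ m : ℕ, 0 < m ∧ m • K1.push (twR ℤ X) x = m • K1.push (twR ℤ Y) x := by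
  have h1 := artK_intertwine a ha
  have h2 := @inter (MonoidAlgebra ℤ F) _ (MonoidAlgebra ℤ F) _ X Y _ _ _ _ (twR ℤ X) (twR ℤ Y) (n : ℤ) a b hab hba
  refine h2 h1 ?_ x
  intro k U
  obtain ⟨m, Z, hm, hZ⟩ := pow_mod n hn U
  refine ⟨m, Z, hm, ?_⟩
  refine hZ.trans ?_
  congr 1

private theorem artK_assemble {F : Type v} [Group F] {I J : Type} [Fintype I] [Fintype J]
    (D : I → Subgroup F) (E : J → Subgroup F) (hD : ∀ i, IsCyclic (D i))
    (hE : ∀ j, IsCyclic (E j)) (u : ∀ i, K1 (MonoidAlgebra ℤ (D i)))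
    (w : ∀ j, K1 (MonoidAlgebra ℤ (E j))) :
    ∃ (r : ℕ) (L : Fin r → Subgroup F) (y : ∀ i, K1 (MonoidAlgebra ℤ (L i))),
      (∀ i, IsCyclic (L i)) ∧
        ∑ j, ind (E j).subtype (w j) - ∑ i, ind (D i).subtype (u i) =
          ∑ i, ind (L i).subtype (y i) := by
  let L' : J ⊕ I → Subgroup F := Sum.elim E D
  let y' : ∀ k : J ⊕ I, K1 (MonoidAlgebra ℤ (L' k)) := fun k => match k with
    | Sum.inl j => w j
    | Sum.inr i => - u i
  let e : Fin (Fintype.card (J ⊕ I)) ≃ J ⊕ I := (Fintype.equivFin (J ⊕ I)).symm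
  refine ⟨Fintype.card (J ⊕ I), fun k => L' (e k), fun k => y' (e k), ?_, ?_⟩
  · intro k
    change IsCyclic (L' (e k))
    rcases e k with j | i
    · exact hE j
    · exact hD i
  · rw [Equiv.sum_comp e (fun k => ind (L' k).subtype (y' k)), Fintype.sum_sum_type]
    change _ = ∑ j, ind (E j).subtype (w j) + ∑ i, ind (D i).subtype (- u i)
    simp only [map_neg, Finset.sum_neg_distrib, sub_eq_add_neg]

theorem artin_K1 (F : Type v) [Group F] [Finite F] (x : K1 (MonoidAlgebra ℤ F)) :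
    ∃ (m r : ℕ) (D : Fin r → Subgroup F) (y : ∀ i, K1 (MonoidAlgebra ℤ (D i))),
      0 < m ∧ (∀ i, IsCyclic (D i)) ∧ m • x = ∑ i, ind (D i).subtype (y i) := by
  obtain ⟨I, J, iI, iJ, D, E, iX, iY, a, b, n, hD, hE, hn, hab, hba, heq⟩ := exists_artin_rel F
  have : Fintype F := Fintype.ofFinite F
  have hfq : ∀ L : Subgroup F, Fintype (F ⧸ L) := fun L => Fintype.ofFinite _
  obtain ⟨m, hm, h1⟩ := artK_main a b n hn hab hba heq x
  rw [artK_push_sigma, push_tw_sigma, Fintype.sum_sum_type] at h1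
  have h2 : ∀ i : Fin (Nat.card F), K1.push (twR ℤ
      (F ⧸ (Sum.elim (fun _ => ⊤) D (Sum.inl i : Fin (Nat.card F) ⊕ I) : Subgroup F))) x = x :=
    fun i => push_tw_top x
  have h3 : ∀ i : I, K1.push (twR ℤ
      (F ⧸ (Sum.elim (fun _ => ⊤) D (Sum.inr i : Fin (Nat.card F) ⊕ I) : Subgroup F))) x =
      ind (D i).subtype (K1.push (lamR ℤ (D i)) x) :=
    fun i => (ind_res1 (D i) x).symm
  simp only [h2, h3, Finset.sum_const, Finset.card_univ, Fintype.card_fin] at h1
  obtain ⟨r, L, y, hL, hy⟩ := artK_assemble D E hD hE (fun i => m • K1.push (lamR ℤ (D i)) x)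
    (fun j => m • K1.push (lamR ℤ (E j)) x)
  refine ⟨m * Nat.card F, r, L, y, Nat.mul_pos hm Nat.card_pos, hL, ?_⟩
  rw [← hy, mul_smul, eq_sub_iff_add_eq]
  simp only [map_nsmul]
  rw [← Finset.smul_sum, ← Finset.smul_sum, ← smul_add]
  exact h1

end Pool.Agent.H95.WH
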